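import Pool.Agent.H883R3.SigmaQ

/-!
Diamond holds on the tree of strictly increasing maps from countable ordinals into the rationals
with bounded range.
-/

namespace Pool.Agent.Results.MP_d3ad9a_lc.DiamondSigmaQ

open Pool.Agent.H883R3

theorem result : Diamond SigmaQ := diamond_sigmaQ

end Pool.Agent.Results.MP_d3ad9a_lc.DiamondSigmaQ
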