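import Pool.Agent.H883R3.SigmaQ

/-!
The tree of strictly increasing maps from countable ordinals into the rationals with bounded range
admits a nice successor-partition.
-/

namespace Pool.Agent.Results.MP_d3ad9a_lc.NicePartition

open Pool.Agent.H883R3

theorem result : ∃ Q : SuccPartition SigmaQ, IsNice Q :=
  ⟨triPartition, nice_triPartition⟩

end Pool.Agent.Results.MP_d3ad9a_lc.NicePartition
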